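import Mathlib
import Pool.Agent.W5h69.HorseEx

/-!
# The Smale horseshoe acts elliptically on the ray graph

Every Smale horseshoe map `f` of the plane (two horizontal strips mapped affinely onto two
vertical strips, the middle of the square folded above the square, its two ends mapped below it)
fixes a vertex of the ray graph of its invariant Cantor set `Λ`: the class of the horizontal half
line ending at the fixed point of `f` in the first strip.  So every orbit of `f` in the ray graph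
is bounded and the stable translation length is `0`: `f` is not loxodromic.
-/

open Set Filter Topology OnePoint

namespace Pool.Agent.Results.MP_f98b29_gt.HorseshoeElliptic

open Pool.Agent.W5h69.RG Pool.Agent.W5h69.HS Pool.Agent.W5h69.HSEx

lemma image_inter {S : Strips} {f : (ℝ × ℝ) ≃ₜ (ℝ × ℝ)} (h : IsHorseshoe S f) :
    f '' Q ∩ Q = Icc S.u₀ S.v₀ ×ˢ Icc 0 1 ∪ Icc S.u₁ S.v₁ ×ˢ Icc 0 1 := by
  obtain ⟨g1, g2, g3, g4, g5⟩ := S.vert
  obtain ⟨k1, k2, k3, k4, k5⟩ := S.horiz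
  ext p
  constructor
  · rintro ⟨⟨q, hq, rfl⟩, hp⟩
    rcases strip_of_mem h hq hp.2.1 hp.2.2 with h1 | h1
    · left
      have h2 := h.strip0 _ hq.1 _ h1
      rw [show (q.1, q.2) = q from rfl] at h2
      refine ⟨?_, hp.2⟩
      rw [h2]
      have := hq.1.1
      have := hq.1.2
      constructor
      · show S.u₀ ≤ S.u₀ + (S.v₀ - S.u₀) * q.1
        nlinarith
      · show S.u₀ + (S.v₀ - S.u₀) * q.1 ≤ S.v₀
        nlinarith
    · right
      have h2 := h.strip1 _ hq.1 _ h1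
      rw [show (q.1, q.2) = q from rfl] at h2
      refine ⟨?_, hp.2⟩
      rw [h2]
      have := hq.1.1
      have := hq.1.2
      constructor
      · show S.u₁ ≤ S.v₁ - (S.v₁ - S.u₁) * q.1
        nlinarith
      · show S.v₁ - (S.v₁ - S.u₁) * q.1 ≤ S.v₁
        nlinarith
  · rintro (⟨⟨h1, h2⟩, ⟨h3, h4⟩⟩ | ⟨⟨h1, h2⟩, ⟨h3, h4⟩⟩)
    · have hd : 0 < S.v₀ - S.u₀ := by linarith
      have he : 0 < S.b₀ - S.a₀ := by linarith
      have hx : (p.1 - S.u₀) / (S.v₀ - S.u₀) ∈ Icc (0 : ℝ) 1 :=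
        ⟨div_nonneg (by linarith) hd.le, by rw [div_le_one hd]; linarith⟩
      have hy : S.a₀ + (S.b₀ - S.a₀) * p.2 ∈ Icc S.a₀ S.b₀ := by
        constructor <;> nlinarith
      refine ⟨⟨((p.1 - S.u₀) / (S.v₀ - S.u₀), S.a₀ + (S.b₀ - S.a₀) * p.2),
        ⟨hx, ⟨by linarith [hy.1], by linarith [hy.2]⟩⟩, ?_⟩,
        ⟨⟨by linarith, by linarith⟩, ⟨h3, h4⟩⟩⟩
      rw [h.strip0 _ hx _ hy]
      ext
      · show S.u₀ + (S.v₀ - S.u₀) * ((p.1 - S.u₀) / (S.v₀ - S.u₀)) = p.1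
        field_simp
        ring
      · show (S.a₀ + (S.b₀ - S.a₀) * p.2 - S.a₀) / (S.b₀ - S.a₀) = p.2
        field_simp
        ring
    · have hd : 0 < S.v₁ - S.u₁ := by linarith
      have he : 0 < S.b₁ - S.a₁ := by linarith
      have hx : (S.v₁ - p.1) / (S.v₁ - S.u₁) ∈ Icc (0 : ℝ) 1 :=
        ⟨div_nonneg (by linarith) hd.le, by rw [div_le_one hd]; linarith⟩
      have hy : S.b₁ - (S.b₁ - S.a₁) * p.2 ∈ Icc S.a₁ S.b₁ := by
        constructor <;> nlinarith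
      refine ⟨⟨((S.v₁ - p.1) / (S.v₁ - S.u₁), S.b₁ - (S.b₁ - S.a₁) * p.2),
        ⟨hx, ⟨by linarith [hy.1], by linarith [hy.2]⟩⟩, ?_⟩,
        ⟨⟨by linarith, by linarith⟩, ⟨h3, h4⟩⟩⟩
      rw [h.strip1 _ hx _ hy]
      ext
      · show S.v₁ - (S.v₁ - S.u₁) * ((S.v₁ - p.1) / (S.v₁ - S.u₁)) = p.1
        field_simp
        ring
      · show (S.b₁ - (S.b₁ - (S.b₁ - S.a₁) * p.2)) / (S.b₁ - S.a₁) = p.2
        field_simp
        ring

lemma tendsto_of_bounded {d : ℕ → ℕ} {M : ℕ} (h : ∀ n, d n ≤ M) :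
    Tendsto (fun n : ℕ => (d n : ℝ) / n) atTop (𝓝 0) := by
  refine squeeze_zero (g := fun n : ℕ => (M : ℝ) / n) (fun n => by positivity) (fun n => ?_)
    (tendsto_const_div_atTop_nhds_zero_nat _)
  have : (d n : ℝ) ≤ M := by exact_mod_cast h n
  gcongr

/-- the conclusion for one map, used for transport along a conjugacy -/
lemma conj_case {S : Strips} {f : (ℝ × ℝ) ≃ₜ (ℝ × ℝ)} (h : IsHorseshoe S f)
    (θ : (ℝ × ℝ) ≃ₜ (ℝ × ℝ)) (hθ : θ '' Q = Q) (g : (ℝ × ℝ) ≃ₜ (ℝ × ℝ)) (hg : θ * f * θ⁻¹ = g) :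
    ∃ α : Ray (Lam g), act g (image_Lam g) α.cls = α.cls := by
  subst hg
  exact ⟨theRay' h θ hθ, act_theRay' h θ hθ⟩

lemma inv_image {θ : (ℝ × ℝ) ≃ₜ (ℝ × ℝ)} (hθ : θ '' Q = Q) : ⇑(θ⁻¹) '' Q = Q :=
  symm_image hθ

/-- **Answer to Q1 (disproof)**: horseshoe maps exist, they satisfy `f(Q) ∩ Q = V₀ ∪ V₁`, and
every map which is a horseshoe map, possibly after a change of coordinates preserving the square
(such as a reflection), fixes a vertex of the ray graph of its invariant set, has bounded orbits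
there, and has stable translation length `0`. -/
theorem result :
    (∃ (S : Strips) (f : (ℝ × ℝ) ≃ₜ (ℝ × ℝ)), IsHorseshoe S f) ∧
    (∀ (S : Strips) (f : (ℝ × ℝ) ≃ₜ (ℝ × ℝ)), IsHorseshoe S f →
      f '' Q ∩ Q = Icc S.u₀ S.v₀ ×ˢ Icc 0 1 ∪ Icc S.u₁ S.v₁ ×ˢ Icc 0 1) ∧
    ∀ (S : Strips) (f θ : (ℝ × ℝ) ≃ₜ (ℝ × ℝ)), θ '' Q = Q → IsHorseshoe S (θ * f * θ⁻¹) →
      ∃ α : Ray (Lam f), act f (image_Lam f) α.cls = α.cls ∧
        ∀ w : Vertex (Lam f), (rayGraph (Lam f)).Reachable α.cls w →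
          (∀ n : ℕ, (rayGraph (Lam f)).dist w ((act f (image_Lam f))^[n] w) ≤
            2 * (rayGraph (Lam f)).dist α.cls w) ∧
          Tendsto (fun n : ℕ =>
            ((rayGraph (Lam f)).dist w ((act f (image_Lam f))^[n] w) : ℝ) / n) atTop (𝓝 0) := by
  refine ⟨⟨stdS, hs, hs_isHorseshoe⟩, fun S f h => image_inter h, fun S f θ hθ h => ?_⟩
  obtain ⟨α, hα⟩ := conj_case h θ⁻¹ (inv_image hθ) f (by group)
  refine ⟨α, hα, ?_⟩
  intro w hw
  have hb := fun n => dist_iter_le (act f (image_Lam f)) hα hw n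
  exact ⟨hb, tendsto_of_bounded hb⟩

end Pool.Agent.Results.MP_f98b29_gt.HorseshoeElliptic
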